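import Pool.Agent.MP_542436_nt.H72.Small
import Pool.Agent.MP_542436_nt.H19.Line
import Pool.Agent.MP_542436_nt.Abc.Defs

/-! The `l`-adic determinant method for `e z ^ ρ = h(t)`. -/

set_option autoImplicit false

namespace Pool.Agent.MP_542436_nt.H72

open Polynomial Finset Pool.Agent.MP_542436_nt

theorem exists_primes (J : ℕ) : ∀ Q : ℕ, 1 ≤ Q → ∃ P : Finset ℕ, P.card ≤ J ∧
    (∀ l ∈ P, l.Prime ∧ Q < l ∧ l ≤ 2 ^ J * Q) ∧
    ∀ n : ℤ, n ≠ 0 → |n| < (Q : ℤ) ^ J → ∃ l ∈ P, ¬ (l : ℤ) ∣ n := by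
  induction J with
  | zero =>
    refine fun Q _ => ⟨∅, le_rfl, by simp, fun n hn h => ?_⟩
    have := abs_pos.2 hn
    simp at h
    omega
  | succ J ih =>
    intro Q hQ
    obtain ⟨p, hp, h1, h2⟩ := Nat.exists_prime_lt_and_le_two_mul Q (by omega)
    obtain ⟨P, hP1, hP2, hP3⟩ := ih (2 * Q) (by omega)
    refine ⟨insert p P, (card_insert_le _ _).trans (by omega), fun l hl => ?_, fun n hn h => ?_⟩
    · rw [pow_succ]
      rcases mem_insert.1 hl with rfl | hl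
      · have : 1 ≤ 2 ^ J := Nat.one_le_two_pow
        exact ⟨hp, h1, by nlinarith⟩
      · obtain ⟨k1, k2, k3⟩ := hP2 l hl
        exact ⟨k1, by omega, by linarith⟩
    by_cases hd : (p : ℤ) ∣ n
    · obtain ⟨n', rfl⟩ := hd
      have hn' : n' ≠ 0 := right_ne_zero_of_mul hn
      have h3 : |n'| < ((2 * Q : ℕ) : ℤ) ^ J := by
        rw [abs_mul, pow_succ, Nat.abs_cast] at h
        have h4 : (Q : ℤ) < p := by exact_mod_cast h1
        have h5 : (0 : ℤ) < Q := by exact_mod_cast hQ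
        have h6 : (Q : ℤ) ^ J ≤ ((2 * Q : ℕ) : ℤ) ^ J :=
          pow_le_pow_left₀ h5.le (by push_cast; linarith) J
        have h7 := abs_pos.2 hn'
        have h8 : |n'| < (Q : ℤ) ^ J := by nlinarith
        linarith
      obtain ⟨l, hl, k3⟩ := hP3 n' hn' h3
      obtain ⟨k0, k1, -⟩ := hP2 l hl
      refine ⟨l, mem_insert_of_mem hl, fun hdd => ?_⟩
      rcases (Nat.prime_iff_prime_int.1 k0).dvd_or_dvd hdd with h4 | h4
      · have := Nat.le_of_dvd hp.pos (Int.natCast_dvd_natCast.1 h4)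
        omega
      · exact k3 h4
    · exact ⟨p, mem_insert_self _ _, hd⟩

theorem hensel (h : ℤ[X]) (e l z0 c : ℤ) (k : ℕ)
    (hc : l ∣ 1 - c * (k * e * z0 ^ (k - 1))) (M : ℕ) :
    ∃ ψ : ℤ[X], ∀ y : ℤ, l ∣ e * z0 ^ k - h.eval y →
      l ∣ ψ.eval y - z0 ∧ l ^ (M + 1) ∣ e * ψ.eval y ^ k - h.eval y := by
  induction M with
  | zero => exact ⟨C z0, fun y hy => by simpa using hy⟩
  | succ M ih =>
    obtain ⟨ψ, hψ⟩ := ih
    refine ⟨ψ - C c * (C e * ψ ^ k - h), fun y hy => ?_⟩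
    obtain ⟨h1, h2⟩ := hψ y hy
    simp only [eval_sub, eval_mul, eval_C, eval_pow]
    generalize ψ.eval y = p at *
    generalize h.eval y = H at *
    have h3 : l ∣ e * p ^ k - H := (dvd_pow_self l (Nat.succ_ne_zero M)).trans h2
    constructor
    · have : p - c * (e * p ^ k - H) - z0 = (p - z0) - c * (e * p ^ k - H) := by ring
      rw [this]
      exact dvd_sub h1 (h3.mul_left c)
    · have h4 : l ∣ 1 - c * (k * e * p ^ (k - 1)) := by
        have h5 : l ∣ p ^ (k - 1) - z0 ^ (k - 1) := h1.trans (sub_dvd_pow_sub_pow _ _ _)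
        have : 1 - c * (k * e * p ^ (k - 1)) =
          (1 - c * (k * e * z0 ^ (k - 1))) - c * k * e * (p ^ (k - 1) - z0 ^ (k - 1)) := by ring
        rw [this]
        exact dvd_sub hc (h5.mul_left _)
      obtain ⟨w, hw⟩ := powAddExpansion p (-(c * (e * p ^ k - H))) k
      have h6 : e * (p - c * (e * p ^ k - H)) ^ k - H = (e * p ^ k - H) *
          ((1 - c * (k * e * p ^ (k - 1))) + (e * p ^ k - H) * (e * w * c ^ 2)) := by
        rw [sub_eq_add_neg p, hw]; ring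
      rw [h6, pow_succ]
      exact mul_dvd_mul h2 (dvd_add h4 (h3.mul_right _))

theorem lift_unique {e z0 p z : ℤ} {l k M : ℕ} (hl : l.Prime)
    (hn : ¬ (l : ℤ) ∣ k * e * z0 ^ (k - 1)) (h1 : (l : ℤ) ∣ p - z0) (h2 : (l : ℤ) ∣ z - z0)
    (h : (l : ℤ) ^ M ∣ e * p ^ k - e * z ^ k) : (l : ℤ) ^ M ∣ p - z := by
  obtain ⟨w, hw⟩ := powAddExpansion z (p - z) k
  rw [add_sub_cancel] at hw
  have h3 : e * p ^ k - e * z ^ k = (k * e * z ^ (k - 1) + e * w * (p - z)) * (p - z) := by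
    rw [hw]; ring
  have h4 : ¬ (l : ℤ) ∣ k * e * z ^ (k - 1) + e * w * (p - z) := fun hd => hn (by
    have h5 : (l : ℤ) ∣ p - z := by simpa using dvd_sub h1 h2
    have h6 := (h2.trans (sub_dvd_pow_sub_pow z z0 (k - 1))).mul_left (k * e)
    have h7 := dvd_sub (dvd_sub hd (h5.mul_left (e * w))) h6
    have h8 : k * e * z ^ (k - 1) + e * w * (p - z) - e * w * (p - z) -
      k * e * (z ^ (k - 1) - z0 ^ (k - 1)) = k * e * z0 ^ (k - 1) := by ring
    rwa [h8] at h7)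
  rw [h3] at h
  exact (Nat.prime_iff_prime_int.1 hl).pow_dvd_of_dvd_mul_left M h4 h

/-- The determinant of a class vanishes. -/
theorem det_zero (h : ℤ[X]) (e z0 L Z : ℤ) (l k D : ℕ) (hl : l.Prime)
    (hn : ¬ (l : ℤ) ∣ k * e * z0 ^ (k - 1))
    (hsz : ((D * k).factorial : ℤ) * ∏ j : Fin D × Fin k, L ^ (j.1 : ℕ) * Z ^ (j.2 : ℕ) <
      (l : ℤ) ^ (D * k * (D * k - 1) / 2))
    (y z : Fin D × Fin k → ℤ) (hy : ∀ i, |y i| ≤ L) (hz : ∀ i, |z i| ≤ Z)
    (hyy : ∀ i j, (l : ℤ) ∣ y j - y i) (hzz : ∀ i, (l : ℤ) ∣ z i - z0)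
    (he : ∀ i, h.eval (y i) = e * z i ^ k) :
    (Matrix.of fun i j : Fin D × Fin k => y i ^ (j.1 : ℕ) * z i ^ (j.2 : ℕ)).det = 0 := by
  obtain ⟨u, c, huc⟩ : IsCoprime (l : ℤ) (k * e * z0 ^ (k - 1)) :=
    ((Nat.prime_iff_prime_int.1 hl).irreducible.coprime_iff_not_dvd).2 hn
  set M := D * k * (D * k - 1) / 2 with hM
  obtain ⟨ψ, hψ⟩ := hensel h e l z0 c k ⟨u, by linarith⟩ M
  have h1 : ∀ i, (l : ℤ) ^ M ∣ z i - ψ.eval (y i) := by
    intro i
    obtain ⟨a1, a2⟩ := hψ (y i) (by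
      rw [he, ← mul_sub]
      exact ((dvd_sub_comm.1 (hzz i)).trans (sub_dvd_pow_sub_pow _ _ _)).mul_left _)
    rw [he] at a2
    exact dvd_sub_comm.1 (lift_unique hl hn a1 (hzz i) ((pow_dvd_pow _ (Nat.le_succ M)).trans a2))
  have h2 := H19.det_dvd_sub
    (Matrix.of fun i j : Fin D × Fin k => y i ^ (j.1 : ℕ) * z i ^ (j.2 : ℕ))
    (Matrix.of fun i j : Fin D × Fin k => (X ^ (j.1 : ℕ) * ψ ^ (j.2 : ℕ)).eval (y i))
    (l ^ M) (by
      intro i j
      simp only [Matrix.of_apply, eval_mul, eval_pow, eval_X, Nat.cast_pow]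
      rw [← mul_sub]
      exact ((h1 i).trans (sub_dvd_pow_sub_pow _ _ _)).mul_left _)
  have h3 : (l : ℤ) ^ M ∣ (Matrix.of fun i j : Fin D × Fin k =>
      (X ^ (j.1 : ℕ) * ψ ^ (j.2 : ℕ)).eval (y i)).det := by
    rw [← Matrix.det_submatrix_equiv_self (finProdFinEquiv (m := D) (n := k)).symm]
    exact (H19.pow_dvd_vander (fun i => y (finProdFinEquiv.symm i)) l fun i j => hyy _ _).trans
      (H19.vander_dvd (fun i => y (finProdFinEquiv.symm i))
        fun j => X ^ ((finProdFinEquiv.symm j).1 : ℕ) * ψ ^ ((finProdFinEquiv.symm j).2 : ℕ))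
  have h4 : (l : ℤ) ^ M ∣
      (Matrix.of fun i j : Fin D × Fin k => y i ^ (j.1 : ℕ) * z i ^ (j.2 : ℕ)).det := by
    push_cast at h2
    simpa using dvd_add h2 h3
  refine Int.eq_zero_of_abs_lt_dvd h4 ((H19.abs_det_le _
    (fun j : Fin D × Fin k => L ^ (j.1 : ℕ) * Z ^ (j.2 : ℕ)) fun i j => ?_).trans_lt ?_)
  · have := (abs_nonneg _).trans (hy i)
    rw [Matrix.of_apply, abs_mul, abs_pow, abs_pow]
    exact mul_le_mul (pow_le_pow_left₀ (abs_nonneg _) (hy i) _)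
      (pow_le_pow_left₀ (abs_nonneg _) (hz i) _) (by positivity) (by positivity)
  · simpa only [Fintype.card_prod, Fintype.card_fin] using hsz

/-- The size of the determinant. -/
theorem size_lt (x y L Z l : ℝ) (m k : ℕ) (hk : 2 ≤ k) (hx : 1 ≤ x) (hy : 1 ≤ y) (hL0 : 0 ≤ L)
    (hZ0 : 0 ≤ Z) (hL : L ≤ x ^ k) (hZ : Z ≤ y ^ m)
    (hl : (((2 * m + 1) * k).factorial : ℝ) * (x * y) < l) :
    (((2 * m + 1) * k).factorial : ℝ) *
      ∏ j : Fin (2 * m + 1) × Fin k, L ^ (j.1 : ℕ) * Z ^ (j.2 : ℕ) <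
      l ^ ((2 * m + 1) * k * ((2 * m + 1) * k - 1) / 2) := by
  set n := (2 * m + 1) * k with hn
  set N := n * (n - 1) / 2 with hN
  have hn2 : 2 * m * k + 2 ≤ n := by rw [hn]; nlinarith
  have hN1 : n * (m * k) ≤ N ∧ 1 ≤ N := by
    rw [hN, Nat.le_div_iff_mul_le two_pos, Nat.le_div_iff_mul_le two_pos]
    obtain ⟨r, hr⟩ : ∃ r, n = r + 1 := ⟨n - 1, by omega⟩
    have hr1 : 1 ≤ r := by omega
    rw [hr, Nat.add_sub_cancel]
    constructor <;> nlinarith
  have h1 : ∑ j : Fin (2 * m + 1) × Fin k, k * (j.1 : ℕ) ≤ N := by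
    rw [hN, ← Finset.sum_range_id, ← Fin.sum_univ_eq_sum_range (fun i => i),
      ← Equiv.sum_comp finProdFinEquiv]
    exact Finset.sum_le_sum fun j _ => by rw [finProdFinEquiv_apply_val]; omega
  have h2 : ∑ j : Fin (2 * m + 1) × Fin k, m * (j.2 : ℕ) ≤ N := by
    refine le_trans ?_ hN1.1
    refine (Finset.sum_le_card_nsmul _ _ (m * k) fun j _ =>
      Nat.mul_le_mul_left _ j.2.2.le).trans ?_
    simp [hn]
  have h3 : ∏ j : Fin (2 * m + 1) × Fin k, L ^ (j.1 : ℕ) * Z ^ (j.2 : ℕ) ≤ (x * y) ^ N := by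
    calc _ ≤ ∏ j : Fin (2 * m + 1) × Fin k, x ^ (k * (j.1 : ℕ)) * y ^ (m * (j.2 : ℕ)) :=
          Finset.prod_le_prod (fun _ _ => by positivity) fun j _ => by
            rw [pow_mul, pow_mul]; gcongr
      _ ≤ _ := by
        rw [Finset.prod_mul_distrib, Finset.prod_pow_eq_pow_sum, Finset.prod_pow_eq_pow_sum,
          mul_pow]
        gcongr
  have h4 : (1 : ℝ) ≤ n.factorial := by exact_mod_cast n.factorial_pos
  calc _ ≤ (n.factorial : ℝ) ^ N * (x * y) ^ N :=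
        mul_le_mul (le_self_pow₀ h4 (by omega)) h3 (by positivity) (by positivity)
    _ < _ := by
      rw [← mul_pow]
      exact pow_lt_pow_left₀ hl (by positivity) (by omega)

/-- The number of classes modulo `l`. -/
theorem classes_le (h : ℤ[X]) (e : ℤ) (k l : ℕ) (hl : l.Prime) (hk : 0 < k) (he : ¬ (l : ℤ) ∣ e)
    (S : Finset ℤ) (z : ℤ → ℤ) (hS : ∀ y ∈ S, h.eval y = e * z y ^ k) :
    (S.image fun y : ℤ => ((y : ZMod l), (z y : ZMod l))).card ≤ k * l := by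
  classical
  have : Fact l.Prime := ⟨hl⟩
  have h1 := Finset.card_le_mul_card_image_of_maps_to (f := Prod.fst)
    (s := S.image fun y : ℤ => ((y : ZMod l), (z y : ZMod l))) (t := Finset.univ)
    (fun _ _ => Finset.mem_univ _) k (by
      intro y0 _
      have he' : (e : ZMod l) ≠ 0 := fun h0 => he ((ZMod.intCast_zmod_eq_zero_iff_dvd _ _).1 h0)
      set R : (ZMod l)[X] := C (e : ZMod l) * X ^ k - C ((h.map (Int.castRingHom _)).eval y0)
        with hR
      have hRd : R.natDegree = k := by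
        rw [hR, natDegree_sub_C, natDegree_C_mul_X_pow _ _ he']
      have hR0 : R ≠ 0 := by
        intro h0
        rw [h0, natDegree_zero] at hRd
        omega
      rw [← Finset.card_image_of_injOn (f := Prod.snd) (by
        intro p hp q hq hpq
        exact Prod.ext ((Finset.mem_filter.1 hp).2.trans (Finset.mem_filter.1 hq).2.symm) hpq)]
      refine le_trans (card_le_degree_of_subset_roots (p := R) fun w hw => ?_) hRd.le
      obtain ⟨p, hp, rfl⟩ := Finset.mem_image.1 hw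
      obtain ⟨hp1, hp2⟩ := Finset.mem_filter.1 hp
      obtain ⟨y, hy, rfl⟩ := Finset.mem_image.1 hp1
      rw [mem_roots hR0, IsRoot.def, hR, ← hp2]
      simp only [eval_sub, eval_mul, eval_C, eval_pow, eval_X]
      rw [eval_intCast_map, Int.cast_id, hS y hy]
      simp)
  simpa [ZMod.card] using h1

theorem det : Abc.DetStmt := by
  classical
  intro ε hε
  obtain ⟨m, hm⟩ := exists_nat_one_div_lt hε
  set D := 2 * (m + 1) + 1 with hD
  set J := 2 * (m + 1) with hJ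
  set c0 : ℕ := (D * 6).factorial + 7 with hc0
  set K : ℕ := J * (6 * (D + 6) * (6 * (2 ^ J * (2 * c0)))) with hK
  refine ⟨K + 1, by simp, fun cap hcap ρ h e T A h2 h6 hd1 hd6 hsep he hec hT hA => ?_⟩
  have hcap1 : (1 : ℝ) ≤ cap := by exact_mod_cast hcap
  set x : ℝ := T ^ ((1 : ℝ) / ρ) with hx
  set y : ℝ := (cap : ℝ) ^ ((1 : ℝ) / (m + 1 : ℕ)) with hy
  have hx1 : 1 ≤ x := Real.one_le_rpow hT (by positivity)
  have hy1 : 1 ≤ y := Real.one_le_rpow hcap1 (by positivity)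
  have hxT : x ^ ρ = T := by
    rw [hx, one_div]
    exact Real.rpow_inv_natCast_pow (by linarith) (by omega)
  have hyc : y ^ (m + 1) = cap := by
    rw [hy, one_div]
    exact Real.rpow_inv_natCast_pow (by linarith) (by omega)
  have hye : y ≤ (cap : ℝ) ^ ε := Real.rpow_le_rpow_of_exponent_le hcap1 (by push_cast; exact hm.le)
  have hxy : 1 ≤ x * y := one_le_mul_of_one_le_of_one_le hx1 hy1
  have hc7 : (7 : ℝ) ≤ c0 := by exact_mod_cast (by omega : 7 ≤ c0)
  set Q : ℕ := ⌈c0 * (x * y)⌉₊ with hQ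
  have hQ1 : c0 * (x * y) ≤ Q := Nat.le_ceil _
  have hQ2 : (Q : ℝ) ≤ 2 * c0 * (x * y) := by
    have := Nat.ceil_lt_add_one (a := c0 * (x * y)) (by positivity)
    nlinarith
  have hQ7 : 7 ≤ Q := by
    have : (7 : ℝ) ≤ Q := by nlinarith
    exact_mod_cast this
  obtain ⟨P, hP1, hP2, hP3⟩ := exists_primes J Q (by omega)
  choose! hA1 z hz0 hz1 hz2 using hA
  have hcov : A ⊆ P.biUnion fun l => A.filter fun t => ¬ (l : ℤ) ∣ e * z t := by
    intro t ht
    obtain ⟨l, hl, hl'⟩ := hP3 (e * z t) (mul_ne_zero he (by exact_mod_cast (hz0 t ht).ne')) (by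
      have h1 : |e * z t| ≤ (cap : ℤ) * cap := by
        rw [abs_mul, Nat.abs_cast]
        exact mul_le_mul hec (by exact_mod_cast hz1 t ht) (by positivity) (by positivity)
      have h3 : (cap : ℝ) * cap < (Q : ℝ) ^ J := by
        rw [← hyc, ← pow_add, ← two_mul]
        exact pow_lt_pow_left₀ (by nlinarith) (by linarith) (by omega)
      exact h1.trans_lt (by exact_mod_cast h3))
    exact mem_biUnion.2 ⟨l, hl, mem_filter.2 ⟨ht, hl'⟩⟩
  have hone : ∀ l ∈ P, (A.filter fun t => ¬ (l : ℤ) ∣ e * z t).card ≤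
      6 * (D + 6) * (6 * (2 ^ J * Q)) := by
    intro l hl
    obtain ⟨hl0, hl1, hl2⟩ := hP2 l hl
    set S := A.filter fun t => ¬ (l : ℤ) ∣ e * z t with hS
    rcases S.eq_empty_or_nonempty with h0 | ⟨t0, ht0⟩
    · simp [h0]
    have hpl := Nat.prime_iff_prime_int.1 hl0
    have hcls := classes_le h e ρ l hl0 (by omega)
      (fun hd => (mem_filter.1 ht0).2 (hd.mul_right _)) S (fun t => z t)
      fun t ht => hz2 t (mem_filter.1 ht).1
    have hsz : ((D * ρ).factorial : ℤ) *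
        ∏ j : Fin D × Fin ρ, ⌊T⌋ ^ (j.1 : ℕ) * (cap : ℤ) ^ (j.2 : ℕ) <
        (l : ℤ) ^ (D * ρ * (D * ρ - 1) / 2) := by
      have h1 : ((D * ρ).factorial : ℝ) ≤ c0 := by
        have := Nat.factorial_le (Nat.mul_le_mul_left D h6)
        exact_mod_cast (by omega : (D * ρ).factorial ≤ c0)
      have h3 : (Q : ℝ) < l := by exact_mod_cast hl1
      have := size_lt x y (⌊T⌋ : ℤ) cap l (m + 1) ρ h2 hx1 hy1
        (by exact_mod_cast Int.floor_nonneg.2 (by linarith)) (by positivity)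
        (hxT ▸ Int.floor_le T) hyc.ge
        (((mul_le_mul_of_nonneg_right h1 (by positivity)).trans hQ1).trans_lt h3)
      exact_mod_cast this
    refine (Finset.card_le_mul_card_image (f := fun t : ℤ => ((t : ZMod l), ((z t : ℤ) : ZMod l)))
      S (6 * (D + 6)) fun w hw => ?_).trans
      (Nat.mul_le_mul_left _ (hcls.trans (Nat.mul_le_mul h6 hl2)))
    obtain ⟨y0, hy0, rfl⟩ := Finset.mem_image.1 hw
    refine (class_small h e ρ D (by omega) he hd1 hsep _ (fun t => (z t : ℤ))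
      (fun t ht => hz2 t (mem_filter.1 (mem_filter.1 ht).1).1) fun u hu => ?_).trans
      (Nat.mul_le_mul h6 (by omega))
    have hy1 := fun i => (mem_filter.1 (mem_filter.1 (hu i)).1).1
    have hy2 := fun i => Prod.mk.inj (mem_filter.1 (hu i)).2
    refine det_zero h e (z y0) ⌊T⌋ cap l ρ D hl0 ?_ hsz u (fun i => (z (u i) : ℤ))
      (fun i => Int.le_floor.2 (by push_cast; exact hA1 _ (hy1 i))) (fun i => ?_) (fun i j => ?_)
      (fun i => ?_) (fun i => hz2 _ (hy1 i))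
    · intro hdv
      rcases hpl.dvd_or_dvd hdv with h1 | h1
      · rcases hpl.dvd_or_dvd h1 with h3 | h3
        · have := Nat.le_of_dvd (by omega) (Int.natCast_dvd_natCast.1 h3)
          omega
        · exact (mem_filter.1 hy0).2 (h3.mul_right _)
      · exact (mem_filter.1 hy0).2 ((hpl.dvd_of_dvd_pow h1).mul_left _)
    · rw [Nat.abs_cast]; exact_mod_cast hz1 _ (hy1 i)
    · exact (ZMod.intCast_eq_intCast_iff_dvd_sub _ _ _).1 ((hy2 i).1.trans (hy2 j).1.symm)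
    · exact (ZMod.intCast_eq_intCast_iff_dvd_sub _ _ _).1 (hy2 i).2.symm
  have hfin : A.card ≤ J * (6 * (D + 6) * (6 * (2 ^ J * Q))) :=
    (card_le_card hcov).trans ((card_biUnion_le_card_mul _ _ _ hone).trans
      (Nat.mul_le_mul_right _ hP1))
  calc (A.card : ℝ) ≤ J * (6 * (D + 6) * (6 * (2 ^ J * Q))) := by exact_mod_cast hfin
    _ ≤ J * (6 * (D + 6) * (6 * (2 ^ J * (2 * c0 * (x * y))))) := by gcongr
    _ = K * y * x := by rw [hK]; push_cast; ring
    _ ≤ _ := by gcongr; linarith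

end Pool.Agent.MP_542436_nt.H72
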