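import Mathlib

/-! Few points of the curve `e z ^ ρ = h(t)` lie on an auxiliary curve. -/

set_option autoImplicit false

namespace Pool.Agent.MP_542436_nt.H72

open Polynomial Finset

/-- If all maximal minors vanish there is a nontrivial linear relation. -/
theorem exists_rel {ι σ : Type} [Fintype ι] [DecidableEq ι] (v : σ → ι → ℂ)
    (hdet : ∀ y : ι → σ, (Matrix.of fun i j => v (y i) j).det = 0) :
    ∃ a : ι → ℂ, a ≠ 0 ∧ ∀ s, ∑ j, v s j * a j = 0 := by
  have hspan : Submodule.span ℂ (Set.range v) < ⊤ := by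
    rw [lt_top_iff_ne_top]
    intro htop
    obtain ⟨κ, a, -, h2, h3⟩ := exists_linearIndependent' ℂ v
    let b := Module.Basis.mk h3 (by rw [h2, htop])
    let E := b.indexEquiv (Pi.basisFun ℂ ι)
    have h4 : LinearIndependent ℂ (Matrix.of fun i j => v (a (E.symm i)) j).row :=
      h3.comp E.symm E.symm.injective
    exact ((Matrix.isUnit_iff_isUnit_det _).1
      (Matrix.linearIndependent_rows_iff_isUnit.1 h4)).ne_zero (hdet fun i => a (E.symm i))
  obtain ⟨f, hf0, hf⟩ := Submodule.exists_le_ker_of_lt_top _ hspan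
  have hfa : ∀ w : ι → ℂ, f w = ∑ j, w j * f (Pi.single j 1) := by
    intro w
    rw [LinearMap.pi_apply_eq_sum_univ]
    refine Finset.sum_congr rfl fun j _ => ?_
    rw [smul_eq_mul]
    congr 2
    ext i
    simp [Pi.single_apply, eq_comm]
  refine ⟨fun j => f (Pi.single j 1), fun h => hf0 (LinearMap.ext fun w => ?_), fun s => ?_⟩
  · rw [hfa]
    exact Finset.sum_eq_zero fun j _ => by rw [congrFun h j]; simp
  · rw [← hfa]
    exact hf (Submodule.subset_span ⟨_, rfl⟩)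

/-- The matrix of multiplication by `∑ P b z ^ b` modulo `z ^ ρ = c`. -/
def mulM {R : Type} [CommRing R] {ρ : ℕ} [NeZero ρ] (P : Fin ρ → R) (c : R) :
    Matrix (Fin ρ) (Fin ρ) R :=
  Matrix.of fun i k => P (k - i) * if i ≤ k then 1 else c

theorem mulM_key {R A : Type} [CommRing R] [CommRing A] (φ : R →+* A) {ρ : ℕ} [NeZero ρ]
    (P : Fin ρ → R) (c : R) (w : A) (hw : w ^ ρ = φ c) (i : Fin ρ) :
    ∑ k, φ (mulM P c i k) * w ^ (k : ℕ) = w ^ (i : ℕ) * ∑ b, φ (P b) * w ^ (b : ℕ) := by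
  rw [← Equiv.sum_comp (Equiv.addRight i), Finset.mul_sum]
  refine Finset.sum_congr rfl fun b _ => ?_
  simp only [mulM, Matrix.of_apply, Equiv.coe_addRight, add_sub_cancel_right, map_mul]
  have h1 := i.2
  have h2 := b.2
  rw [mul_assoc, mul_left_comm (w ^ (i : ℕ)), ← pow_add]
  congr 1
  by_cases h : (b : ℕ) + i < ρ
  · have h3 : ((b + i : Fin ρ) : ℕ) = b + i := by rw [Fin.val_add, Nat.mod_eq_of_lt h]
    rw [if_pos (by rw [Fin.le_def, h3]; omega), map_one, one_mul, h3, add_comm]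
  · have h3 : ((b + i : Fin ρ) : ℕ) = b + i - ρ := by
      rw [Fin.val_add, Nat.mod_eq_sub_mod (by omega), Nat.mod_eq_of_lt (by omega)]
    rw [if_neg (by rw [Fin.le_def, h3]; omega), h3, ← hw, ← pow_add]
    congr 1
    omega

theorem prime_aux (c : ℂ[X]) (ρ : ℕ) (hρ : 0 < ρ) (hsep : c.Separable) (hd : 1 ≤ c.natDegree) :
    Prime (X ^ ρ - C c : ℂ[X][X]) := by
  have hh : c ≠ 0 := by rintro rfl; simp at hd
  obtain ⟨α, hα⟩ := IsAlgClosed.exists_root c (by
    rw [degree_eq_natDegree hh]; exact_mod_cast (by omega : c.natDegree ≠ 0))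
  have hm : (X ^ ρ - C c : ℂ[X][X]).Monic := monic_X_pow_sub_C c hρ.ne'
  have hp := prime_X_sub_C α
  refine Irreducible.prime (irreducible_of_eisenstein_criterion (P := Ideal.span {X - C α})
    ((Ideal.span_singleton_prime hp.ne_zero).2 hp) ?_ (fun n hn => ?_) ?_ ?_ hm.isPrimitive)
  · rw [hm.leadingCoeff, Ideal.mem_span_singleton]
    exact fun h => hp.not_isUnit (isUnit_of_dvd_one h)
  · rw [degree_X_pow_sub_C hρ] at hn
    have hn' : n ≠ ρ := by rintro rfl; exact lt_irrefl _ hn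
    rw [Ideal.mem_span_singleton, coeff_sub, coeff_X_pow, if_neg hn', zero_sub, dvd_neg, coeff_C]
    split_ifs
    · exact dvd_iff_isRoot.2 hα
    · exact dvd_zero _
  · rw [degree_X_pow_sub_C hρ]
    exact_mod_cast hρ
  · rw [Ideal.span_singleton_pow, Ideal.mem_span_singleton, coeff_sub, coeff_X_pow,
      if_neg hρ.ne, zero_sub, dvd_neg, coeff_C_zero, pow_two]
    exact fun h => hp.not_isUnit (hsep.squarefree _ h)

theorem sum_eq_zero_of_dvd {R : Type} [CommRing R] [IsDomain R] {ρ : ℕ} (hρ : 0 < ρ) (c : R)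
    (v : Fin ρ → R) (h : (X ^ ρ - C c : R[X]) ∣ ∑ i, C (v i) * X ^ (i : ℕ)) : v = 0 := by
  have h1 := eq_zero_of_dvd_of_degree_lt h (by
    rw [degree_X_pow_sub_C hρ]
    exact degree_sum_fin_lt v)
  funext i
  have := congrArg (fun p : R[X] => p.coeff i) h1
  simpa [finsetSum_coeff, coeff_X_pow, Fin.val_inj] using this

theorem det_ne {ρ : ℕ} [NeZero ρ] (P : Fin ρ → ℂ[X]) (hP : P ≠ 0) (c : ℂ[X]) (hsep : c.Separable)
    (hd : 1 ≤ c.natDegree) : (mulM P c).det ≠ 0 := by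
  intro h
  have hρ : 0 < ρ := Nat.pos_of_ne_zero (NeZero.ne ρ)
  obtain ⟨v, hv0, hv⟩ := Matrix.exists_vecMul_eq_zero_iff.2 h
  set f : ℂ[X][X] := X ^ ρ - C c with hf
  have hw : AdjoinRoot.root f ^ ρ = AdjoinRoot.of f c := by
    have := AdjoinRoot.eval₂_root f
    rwa [hf, eval₂_sub, eval₂_X_pow, eval₂_C, sub_eq_zero] at this
  have h1 : AdjoinRoot.mk f ((∑ i, C (v i) * X ^ (i : ℕ)) * ∑ b, C (P b) * X ^ (b : ℕ)) = 0 := by
    simp only [map_mul, map_sum, map_pow, AdjoinRoot.mk_C, AdjoinRoot.mk_X]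
    rw [Finset.sum_mul]
    simp only [mul_assoc, ← mulM_key (AdjoinRoot.of f) P c _ hw]
    simp only [Finset.mul_sum]
    rw [Finset.sum_comm]
    refine Finset.sum_eq_zero fun k _ => ?_
    have h2 := congrArg (AdjoinRoot.of f) (congrFun hv k)
    simp only [Matrix.vecMul, dotProduct, map_sum, map_mul, Pi.zero_apply, map_zero] at h2
    simp only [← mul_assoc]
    rw [← Finset.sum_mul, h2, zero_mul]
  rcases (prime_aux c ρ hρ hsep hd).dvd_or_dvd (AdjoinRoot.mk_eq_zero.1 h1) with h2 | h2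
  · exact hv0 (sum_eq_zero_of_dvd hρ c v h2)
  · exact hP (sum_eq_zero_of_dvd hρ c P h2)

theorem natDegree_det_le {ι : Type} [Fintype ι] [DecidableEq ι] (M : Matrix ι ι ℂ[X]) (d : ℕ)
    (h : ∀ i j, (M i j).natDegree ≤ d) : M.det.natDegree ≤ Fintype.card ι * d := by
  rw [Matrix.det_apply]
  refine natDegree_sum_le_of_forall_le _ _ fun σ _ => (natDegree_smul_le _ _).trans
    ((natDegree_prod_le _ _).trans ?_)
  exact (Finset.sum_le_card_nsmul _ _ d fun i _ => h _ _).trans (by simp)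

/-- A class is small. -/
theorem class_small (h : ℤ[X]) (e : ℤ) (ρ D : ℕ) (hρ : 0 < ρ) (he : e ≠ 0)
    (hd : 1 ≤ h.natDegree) (hsep : (h.map (Int.castRingHom ℚ)).Separable)
    (S : Finset ℤ) (z : ℤ → ℤ) (hS : ∀ y ∈ S, h.eval y = e * z y ^ ρ)
    (hdet : ∀ y : Fin D × Fin ρ → ℤ, (∀ i, y i ∈ S) →
      (Matrix.of fun i j : Fin D × Fin ρ => y i ^ (j.1 : ℕ) * z (y i) ^ (j.2 : ℕ)).det = 0) :
    S.card ≤ ρ * (D + h.natDegree) := by
  classical
  have : NeZero ρ := ⟨hρ.ne'⟩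
  obtain ⟨a, ha0, ha⟩ := exists_rel
    (fun (y : S) (j : Fin D × Fin ρ) => (y.1 : ℂ) ^ (j.1 : ℕ) * (z y.1 : ℂ) ^ (j.2 : ℕ)) (by
      intro y
      have h7 := (Int.castRingHom ℂ).map_det (Matrix.of fun i j : Fin D × Fin ρ =>
        (y i).1 ^ (j.1 : ℕ) * z (y i).1 ^ (j.2 : ℕ))
      rw [hdet (fun i => (y i).1) fun i => (y i).2, map_zero] at h7
      refine Eq.trans (congrArg Matrix.det ?_) h7.symm
      ext i j
      simp)
  set P : Fin ρ → ℂ[X] := fun t => ∑ i : Fin D, monomial i (a (i, t)) with hP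
  have hPd : ∀ t, (P t).natDegree ≤ D := fun t =>
    natDegree_sum_le_of_forall_le _ _ fun i _ => (natDegree_monomial_le _).trans i.2.le
  have hPne : P ≠ 0 := fun hc => ha0 (funext fun j => by
    have := congrArg (fun p : ℂ[X] => p.coeff j.1) (congrFun hc j.2)
    simpa [hP, finsetSum_coeff, coeff_monomial, Fin.val_inj] using this)
  set H : ℂ[X] := h.map (Int.castRingHom ℂ) with hH
  have hHs : H.Separable := by
    have := hsep.map (f := algebraMap ℚ ℂ)
    rwa [Polynomial.map_map, RingHom.ext_int ((algebraMap ℚ ℂ).comp _) (Int.castRingHom ℂ)] at this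
  have hHd : H.natDegree = h.natDegree :=
    natDegree_map_eq_of_injective (RingHom.injective_int _) h
  have he' : (e : ℂ) ≠ 0 := by exact_mod_cast he
  have hcd : (C (e : ℂ)⁻¹ * H).natDegree = h.natDegree := by
    rw [natDegree_C_mul (inv_ne_zero he'), hHd]
  have hR := det_ne P hPne (C (e : ℂ)⁻¹ * H)
    ((associated_unit_mul_right H _ (isUnit_C.2 (inv_ne_zero he').isUnit)).separable hHs)
    (by omega)
  have hRdeg := natDegree_det_le (mulM P (C (e : ℂ)⁻¹ * H)) (D + h.natDegree) fun i j => by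
    rw [mulM, Matrix.of_apply]
    exact natDegree_mul_le.trans (Nat.add_le_add (hPd _) (by split_ifs <;> simp [hcd]))
  rw [Fintype.card_fin] at hRdeg
  refine le_trans ?_ hRdeg
  rw [← Finset.card_image_of_injective S (Int.cast_injective (α := ℂ))]
  refine card_le_degree_of_subset_roots fun w hw => ?_
  obtain ⟨y, hy, rfl⟩ := Finset.mem_image.1 hw
  rw [mem_roots hR, IsRoot.def, ← coe_evalRingHom, RingHom.map_det]
  refine Matrix.exists_mulVec_eq_zero_iff.1 ⟨fun k => (z y : ℂ) ^ (k : ℕ), fun h0 => ?_, ?_⟩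
  · simpa using congrFun h0 0
  · have h3 : H.eval (y : ℂ) = e * (z y : ℂ) ^ ρ := by
      have := eval_intCast_map (Int.castRingHom ℂ) h y
      rw [hH, this, Int.cast_id, hS y hy]; simp
    funext i
    have h4 := mulM_key (evalRingHom (y : ℂ)) P (C (e : ℂ)⁻¹ * H) (z y) (by
      rw [coe_evalRingHom, eval_mul, eval_C, h3, inv_mul_cancel_left₀ he']) i
    have h5 : ∑ b, evalRingHom (y : ℂ) (P b) * (z y : ℂ) ^ (b : ℕ) = 0 := by
      rw [← ha ⟨y, hy⟩, Fintype.sum_prod_type_right]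
      refine Finset.sum_congr rfl fun b _ => ?_
      simp only [hP, coe_evalRingHom, eval_finsetSum, eval_monomial, Finset.sum_mul]
      exact Finset.sum_congr rfl fun i _ => by ring
    rw [h5, mul_zero] at h4
    exact h4

end Pool.Agent.MP_542436_nt.H72
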